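import Pool.Agent.W620.SB.Idele
import Pool.Agent.W620.SB.Gen

/-!
# A variety with the splitting condition, with adelic points and with empty Brauer–Manin set

Let `E` be the elliptic curve `y² = x³ + x` over `ℚ` and let `X = E ∖ E[2]`, i.e. `X = Spec R` with
`R = ℚ[x, y, 1/y]/(y² - x³ - x)`.  We show that `X` satisfies the splitting condition, that
`X(𝔸_ℚ)` is not empty and that the Brauer–Manin set `X(𝔸_ℚ)^Br` is empty.

* **Splitting condition.**  Let `Ω` be the field of Puiseux series in `t` over `ℚ̄` (algebraically
  closed) with the coefficientwise action of `G_ℚ`.  The rational point `(0, 0)` of `E`, which is not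
  in `X`, gives the point `x = t²`, `y = t √(1 + t⁴)` in `X(Ω)`.  It is generic and invariant under
  `G_ℚ`, so `G_ℚ` acts on the fibres above it of all finite étale covers of all open subschemes `U`
  of `X`.  This action is continuous (the coefficients of an algebraic Puiseux series generate a
  finite extension) and gives the section.
* **Adelic points.**  Local points are found by Hensel's lemma.
* **Brauer–Manin set.**  The functions `x` and `x² + 1` are units on `X`.  For an adelic point `P`
  their valuations are even at all primes, so there are positive rational numbers `r`, `s` such that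
  `u = x/r²` and `v = (x² + 1)/s²` take at `P_ℓ` values which are units at all primes `ℓ`, and
  positive real values.  For an odd prime `p` the cyclic algebras
  `(ℚ(ζ_p)/ℚ, σ, u)` and `(ℚ(ζ_p)/ℚ, σ, v)` over `R` are Azumaya.  Their fibres at `P_ℓ` for `ℓ ≠ p`
  and at the real place are split, as units are local norms from unramified extensions; at `p` the
  fibre is split only if the value of the unit is `≡ 1 mod p`.  So for an adelic point in the
  Brauer–Manin set one has `x(P_p) ≡ r²` and `x(P_p)² + 1 ≡ s² mod p` for all large `p`, hence
  `r⁴ + 1 = s²`, contradicting a theorem of Fermat.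

## The definitions which are used

* `XX`, `str`: the scheme `X = Spec RR` and its structure morphism to `Spec ℚ`; here `RR` is the
  localization of the coordinate ring of the Weierstrass curve `EC` away from `y`.
* `FinEt U`, `Fib u E`, `Pi1 u`: finite étale covers `E` of `U`, their fibres above the geometric
  point `u`, and the étale fundamental group `π₁(U, u)`, i.e. the group of automorphisms of the fibre
  functor with its topology.
* `IsSplitting p u ι s`: the homomorphism `s : Gal(ℚ̄/ℚ) → π₁(U, u)` is continuous and
  `π₁(U, u) → Gal(ℚ̄/ℚ)` composed with `s` is the identity: `s(g)` acts like `g` on the fibres of the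
  covers of `U` which are pulled back from `Spec ℚ`.
* `SplittingCondition p`: every dense open subscheme of `X` has a splitting.
* `AdeleQ`, `AdelicPoint R`: the ring of adeles of `ℚ`, and the set `Hom(R, 𝔸_ℚ)` of adelic points of
  `Spec R`.
* `LocalInvariant K`: a function `inv` from `K`-algebras to `ℚ/ℤ` such that `inv B = 0` if and only if
  `B` is split (a matrix algebra), for all central simple `B`.  The local invariants of class field
  theory have this property; nothing else is used about them.
* `BrauerManinSet R I_∞ I`: the set of adelic points `P` of `Spec R` with
  `∑_v inv_v (B(P_v)) = 0` for all Azumaya algebras `B` over `R` (Mathlib's `IsAzumaya`).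
-/

open Pool.Agent.W620.SB AlgebraicGeometry

namespace Pool.Agent.Results.MP_ad201b_nt.Disproof

/-- The curve `X = E ∖ E[2]`, where `E : y² = x³ + x`, is a variety over `ℚ` which satisfies the
splitting condition and has adelic points, but its Brauer–Manin set is empty. -/
theorem result :
    -- `X` is an integral, separated scheme of finite type over `ℚ`
    IsIntegral XX ∧ IsSeparated str ∧ LocallyOfFiniteType str ∧ QuasiCompact str ∧
    -- `X` satisfies the splitting condition
    SplittingCondition str ∧
    -- `X` has adelic points
    Nonempty (AdelicPoint RR) ∧
    -- no adelic point is orthogonal to the Brauer group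
    ∀ (Ireal : LocalInvariant ℝ) (I : ∀ p : Nat.Primes, LocalInvariant ℚ_[(p : ℕ)]),
      BrauerManinSet RR Ireal I = ∅ := by
  refine ⟨inferInstance, inferInstance, ?_, inferInstance, splittingCondition_XX,
    adelicPoint_nonempty, fun Ireal I => brauerManinSet_empty Ireal I⟩
  rw [HasRingHomProperty.Spec_iff (P := @LocallyOfFiniteType)]
  change (algebraMap ℚ RR).FiniteType
  rw [RingHom.finiteType_algebraMap]
  infer_instance

end Pool.Agent.Results.MP_ad201b_nt.Disproof
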